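import Pool.Agent.H25.RK.DGI
import Pool.Agent.H63.GO.MTaylor
import Pool.Agent.H63.VC.Asym
import Pool.Agent.H63.VC.Cross
import Pool.Agent.H63.VC.EndB
import Pool.Agent.H63.VC.Riem
import Pool.Agent.H63.VC.SlowL
import Pool.Agent.H63.VC.SlowU
import Pool.Agent.H63.VC3.CritB
import Pool.Agent.H63.VC3.Upper
import Pool.Agent.H63.VC4.GaussN
import Pool.Agent.H63.VC4.KBN
import Pool.Agent.H63.VC4.LaplaceN
import Pool.Agent.H63.VC4.UpperN
import Pool.Agent.H63.VC5.Defs
import Pool.Agent.H63.VC6.LocU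
import Pool.Agent.H63.VC6.SlotU
import Pool.Agent.H63.VC7.Link
import Pool.Agent.S3.Asm.Def
import Pool.Agent.S3.Chain
import Pool.Agent.S3.G.ClEnd
import Pool.Agent.S3.G.Vol
import Pool.Agent.S3.Refl2

/-!
# Project AT2: the edge of a clasp as a function of the variable of its node

`v` is the variable of the node, `s = ±1`, the clasp has the weight `2 s`. The variable of the edge is
`y` with `exp (2 π i y) = -1 + 2 i cos (π v)` for `s = 1`; the case `s = -1` follows by complex
conjugation. At this point the closed form of the potential of the edge has the value `cE s v`.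
-/

namespace Pool.Agent.AT2

open Complex Pool.Agent.H63.VC3 Pool.Agent.H63.VC5 Pool.Agent.H63.GV Filter Topology
open Pool.Agent.S3 Pool.Agent.S3.G
open scoped ComplexConjugate

/-- The domain of the variable of the node, for `s = 1`. -/
def Om : Set ℂ := {v | -1 / 4 < v.re} ∩ ({v | v.re < 1 / 3} ∩ {v | 0 < v.im})

theorem Om_open : IsOpen Om :=
  (isOpen_lt continuous_const Complex.continuous_re).inter
    ((isOpen_lt Complex.continuous_re continuous_const).inter
      (isOpen_lt continuous_const Complex.continuous_im))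

theorem Om_convex : Convex ℝ Om :=
  (convex_halfSpace_re_gt _).inter ((convex_halfSpace_re_lt _).inter (convex_halfSpace_im_gt 0))

theorem mem_Om {v : ℂ} : v ∈ Om ↔ -1 / 4 < v.re ∧ v.re < 1 / 3 ∧ 0 < v.im := Iff.rfl

/-- `exp (π i v)`. -/
noncomputable def tt (v : ℂ) : ℂ := exp (Real.pi * I * v)

/-- `exp (2 π i y)`. -/
noncomputable def YY (v : ℂ) : ℂ := -1 + 2 * I * cos (Real.pi * v)

/-- The variable of the edge for `s = 1`. -/
noncomputable def y1 (v : ℂ) : ℂ := log (YY v) / (2 * Real.pi * I)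

/-- The variable of the edge. -/
noncomputable def yC (s : ℤ) (v : ℂ) : ℂ :=
  if s = 1 then log (-1 + 2 * I * cos (Real.pi * v)) / (2 * Real.pi * I)
  else -log (-1 - 2 * I * cos (Real.pi * v)) / (2 * Real.pi * I)

theorem yC_one (v : ℂ) : yC 1 v = y1 v := if_pos rfl

theorem tt_ne (v : ℂ) : tt v ≠ 0 := exp_ne_zero _

theorem cos_tt (v : ℂ) : 2 * cos (Real.pi * v) = tt v + (tt v)⁻¹ := by
  unfold tt
  rw [← exp_neg, Complex.cos]
  rw [show (Real.pi : ℂ) * v * I = Real.pi * I * v by ring,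
    show -((Real.pi : ℂ) * v) * I = -(Real.pi * I * v) by ring]
  ring

theorem YY_tt (v : ℂ) : YY v = -1 + I * (tt v + (tt v)⁻¹) := by
  unfold YY
  rw [← cos_tt]
  ring

theorem im_pi_I_mul' (v : ℂ) : (Real.pi * I * v).im = Real.pi * v.re := by
  have : (Real.pi * I * v : ℂ) = ((Real.pi : ℝ) : ℂ) * (I * v) := by ring
  rw [this, im_ofReal_mul, I_mul_im]

theorem re_pi_I_mul' (v : ℂ) : (Real.pi * I * v).re = -(Real.pi * v.im) := by
  have : (Real.pi * I * v : ℂ) = ((Real.pi : ℝ) : ℂ) * (I * v) := by ring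
  rw [this, re_ofReal_mul, I_mul_re]
  ring

theorem norm_tt (v : ℂ) : ‖tt v‖ = Real.exp (-(Real.pi * v.im)) := by
  unfold tt
  rw [Complex.norm_exp, re_pi_I_mul']

theorem norm_tt_lt {v : ℂ} (h : 0 < v.im) : ‖tt v‖ < 1 := by
  rw [norm_tt, Real.exp_lt_one_iff]
  have := Real.pi_pos
  nlinarith

/-- The real and the imaginary part of `exp (2 π i y)`. -/
theorem YY_re_im (v : ℂ) :
    (YY v).re = -1 + 2 * (Real.sin (Real.pi * v.re) * Real.sinh (Real.pi * v.im)) ∧
    (YY v).im = 2 * (Real.cos (Real.pi * v.re) * Real.cosh (Real.pi * v.im)) := by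
  have e : cos (Real.pi * v) =
      ((Real.cos (Real.pi * v.re) * Real.cosh (Real.pi * v.im) : ℝ) : ℂ) -
        ((Real.sin (Real.pi * v.re) * Real.sinh (Real.pi * v.im) : ℝ) : ℂ) * I := by
    conv_lhs => rw [← re_add_im v]
    rw [mul_add, ← mul_assoc, Complex.cos_add, Complex.cos_mul_I, Complex.sin_mul_I]
    push_cast
    ring
  have e2 : YY v = ((-1 + 2 * (Real.sin (Real.pi * v.re) * Real.sinh (Real.pi * v.im)) : ℝ) : ℂ) +
      ((2 * (Real.cos (Real.pi * v.re) * Real.cosh (Real.pi * v.im)) : ℝ) : ℂ) * I := by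
    unfold YY
    rw [e]
    push_cast
    linear_combination (-2 * (Complex.sin (Real.pi * v.re) * Complex.sinh (Real.pi * v.im))) * I_sq
  rw [e2]
  constructor
  · rw [add_re, ofReal_re, re_ofReal_mul, I_re]
    ring
  · rw [add_im, ofReal_im, im_ofReal_mul, I_im]
    ring

theorem YY_im_gt {v : ℂ} (hv : v ∈ Om) : 1 < (YY v).im := by
  obtain ⟨h1, h2, h3⟩ := mem_Om.1 hv
  have hpi := Real.pi_pos
  rw [(YY_re_im v).2]
  have c1 : 1 / 2 < Real.cos (Real.pi * v.re) := by
    have h4 : |Real.pi * v.re| < Real.pi / 3 := by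
      rw [abs_lt]
      constructor <;> nlinarith
    rw [← Real.cos_abs, ← Real.cos_pi_div_three]
    exact Real.cos_lt_cos_of_nonneg_of_le_pi (abs_nonneg _) (by linarith) h4
  have c2 := Real.one_le_cosh (Real.pi * v.im)
  nlinarith

theorem YY_slit {v : ℂ} (hv : v ∈ Om) : YY v ∈ slitPlane := by
  refine Or.inr ?_
  have := YY_im_gt hv
  linarith

theorem YY_ne {v : ℂ} (hv : v ∈ Om) : YY v ≠ 0 := slitPlane_ne_zero (YY_slit hv)

theorem YY_norm {v : ℂ} (hv : v ∈ Om) : 1 < ‖YY v‖ := by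
  have h1 := YY_im_gt hv
  have h2 := (le_abs_self _).trans (Complex.abs_im_le_norm (YY v))
  linarith

theorem y1_mul (v : ℂ) : 2 * Real.pi * I * y1 v = log (YY v) := by
  unfold y1
  rw [mul_div_cancel₀]
  exact Complex.two_pi_I_ne_zero

theorem y1_exp {v : ℂ} (hv : v ∈ Om) : exp (2 * Real.pi * I * y1 v) = YY v := by
  rw [y1_mul, exp_log (YY_ne hv)]

theorem im_2piI (z : ℂ) : (2 * Real.pi * I * z).im = 2 * Real.pi * z.re := by
  have : (2 * Real.pi * I * z : ℂ) = ((2 * Real.pi : ℝ) : ℂ) * (I * z) := by push_cast; ring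
  rw [this, im_ofReal_mul, I_mul_im]

theorem re_2piI (z : ℂ) : (2 * Real.pi * I * z).re = -(2 * Real.pi * z.im) := by
  have : (2 * Real.pi * I * z : ℂ) = ((2 * Real.pi : ℝ) : ℂ) * (I * z) := by push_cast; ring
  rw [this, re_ofReal_mul, I_mul_re]
  ring

theorem y1_re {v : ℂ} (hv : v ∈ Om) : 0 < (y1 v).re ∧ (y1 v).re < 1 / 2 := by
  have h1 := congrArg Complex.im (y1_mul v)
  rw [im_2piI, log_im] at h1
  have h2 := arg_up (z := YY v) (by have := YY_im_gt hv; linarith)
  have hpi := Real.pi_pos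
  constructor
  · by_contra hc
    push Not at hc
    nlinarith [h2.1]
  · by_contra hc
    push Not at hc
    nlinarith [h2.2]

theorem y1_im {v : ℂ} (hv : v ∈ Om) : (y1 v).im < 0 := by
  have h1 := congrArg Complex.re (y1_mul v)
  rw [re_2piI, log_re] at h1
  have h2 := Real.log_pos (YY_norm hv)
  have hpi := Real.pi_pos
  by_contra hc
  push Not at hc
  have := mul_nonneg (by positivity : 0 ≤ 2 * Real.pi) hc
  linarith

/-- To the left of the imaginary axis. -/
theorem y1_re' {v : ℂ} (hv : v ∈ Om) (h0 : v.re ≤ 0) : 1 / 4 < (y1 v).re := by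
  obtain ⟨k1, k2, k3⟩ := mem_Om.1 hv
  have h1 := congrArg Complex.im (y1_mul v)
  rw [im_2piI, log_im] at h1
  have hpi := Real.pi_pos
  have h2 : (YY v).re < 0 := by
    rw [(YY_re_im v).1]
    have s1 : Real.sin (Real.pi * v.re) ≤ 0 := by
      apply Real.sin_nonpos_of_nonpos_of_neg_pi_le
      · exact mul_nonpos_of_nonneg_of_nonpos hpi.le h0
      · nlinarith
    have s2 : 0 < Real.sinh (Real.pi * v.im) := Real.sinh_pos_iff.2 (by positivity)
    nlinarith [mul_nonneg (neg_nonneg.2 s1) s2.le]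
  have h3 : Real.pi / 2 < arg (YY v) := by
    by_contra hc
    push Not at hc
    have h4 := Complex.arg_le_pi_div_two_iff.1 hc
    rcases h4 with h4 | h4
    · linarith
    · have := YY_im_gt hv
      linarith
  by_contra hc
  push Not at hc
  nlinarith

theorem d1 {v : ℂ} (hv : v ∈ Om) : (y1 v - v).im < 0 := by
  rw [sub_im]
  have := y1_im hv
  have := (mem_Om.1 hv).2.2
  linarith

theorem d2 {v : ℂ} (hv : v ∈ Om) : 0 < (y1 v + v).re ∧ (y1 v + v).re < 1 := by
  rw [add_re]
  obtain ⟨k1, k2, k3⟩ := mem_Om.1 hv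
  obtain ⟨h1, h2⟩ := y1_re hv
  constructor
  · rcases le_or_gt v.re 0 with h | h
    · have := y1_re' hv h
      linarith
    · linarith
  · linarith

theorem sdom_1 {v : ℂ} (hv : v ∈ Om) : sdom (y1 v) (.op v) :=
  ⟨(y1_re hv).1, (y1_re hv).2, Or.inl (d1 hv).ne, Or.inr (d2 hv)⟩

/-! ### The exponentials -/

/-- `exp (π i y)`. -/
noncomputable def ee (v : ℂ) : ℂ := exp (Real.pi * I * y1 v)

theorem ee_sq {v : ℂ} (hv : v ∈ Om) : ee v ^ 2 = -1 + I * (tt v + (tt v)⁻¹) := by
  rw [← YY_tt, ← y1_exp hv, sq]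
  unfold ee
  rw [← exp_add]
  congr 1
  ring

theorem ee_ne (v : ℂ) : ee v ≠ 0 := exp_ne_zero _

theorem two_sin (z : ℂ) : 2 * sin (Real.pi * z) =
    -I * (exp (Real.pi * I * z) - (exp (Real.pi * I * z))⁻¹) := by
  rw [← exp_neg, Complex.sin]
  rw [show (Real.pi : ℂ) * z * I = Real.pi * I * z by ring,
    show -((Real.pi : ℂ) * z) * I = -(Real.pi * I * z) by ring]
  ring

theorem exp_he_sub {v : ℂ} (hv : v ∈ Om) :
    exp (he (y1 v - v)) = -I * (ee v / tt v - tt v / ee v) := by
  have e : exp (Real.pi * I * (y1 v - v)) = ee v / tt v := by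
    unfold ee tt
    rw [← exp_sub]
    congr 1
    ring
  rw [exp_he (Or.inl (d1 hv).ne), two_sin, e, inv_div]

theorem exp_he_add {v : ℂ} (hv : v ∈ Om) :
    exp (he (y1 v + v)) = -I * (ee v * tt v - 1 / (ee v * tt v)) := by
  have e : exp (Real.pi * I * (y1 v + v)) = ee v * tt v := by
    unfold ee tt
    rw [← exp_add]
    congr 1
    ring
  rw [exp_he (Or.inr (d2 hv)), two_sin, e, one_div]

theorem exp_hh_half {v : ℂ} (hv : v ∈ Om) : exp (hh (y1 v + 1 / 2)) = ee v + 1 / ee v := by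
  have c0 : (y1 v + 1 / 2).re = (y1 v).re + 1 / 2 := by
    rw [Complex.add_re]
    norm_num
  obtain ⟨h1, h2⟩ := y1_re hv
  have e : exp (Real.pi * I * (y1 v + 1 / 2)) = I * ee v := by
    unfold ee
    rw [mul_add, exp_add, show (Real.pi * I * (1 / 2) : ℂ) = Real.pi / 2 * I by ring,
      exp_pi_div_two_mul_I, mul_comm]
  rw [← he_eq_hh (by rw [c0]; linarith) (by rw [c0]; linarith),
    exp_he (Or.inr ⟨by rw [c0]; linarith, by rw [c0]; linarith⟩), two_sin, e, mul_inv, inv_I]
  have := ee_ne v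
  field_simp
  linear_combination (-(ee v ^ 2 + 1)) * I_sq

/-! ### Differentiability -/

theorem tt_hasDerivAt (v : ℂ) : HasDerivAt tt (Real.pi * I * tt v) v := by
  have h1 : HasDerivAt (fun v : ℂ => Real.pi * I * v) (Real.pi * I) v := by
    simpa using (hasDerivAt_id v).const_mul (Real.pi * I : ℂ)
  have h2 := h1.cexp
  refine HasDerivAt.congr_deriv (f := tt) h2 ?_
  unfold tt
  ring

theorem y1_diff {v : ℂ} (hv : v ∈ Om) : DifferentiableAt ℂ y1 v := by
  have h1 : DifferentiableAt ℂ YY v := by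
    unfold YY
    fun_prop
  exact (h1.clog (YY_slit hv)).div_const _

/-- A function with derivative zero and limit zero vanishes. -/
theorem zero_of_deriv {A : ℂ → ℂ} (hd : ∀ v ∈ Om, HasDerivAt A 0 v)
    (hl : Tendsto (fun T : ℝ => A (T * I)) atTop (𝓝 0)) {v : ℂ} (hv : v ∈ Om) : A v = 0 := by
  have h1 : ∀ q ∈ Om, A q = A v := by
    intro q hq
    apply Om_convex.is_const_of_fderivWithin_eq_zero (𝕜 := ℂ) (f := A) (s := Om)
    · intro x hx
      exact (hd x hx).differentiableAt.differentiableWithinAt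
    · intro x hx
      rw [fderivWithin_of_isOpen Om_open hx]
      ext
      simpa using (hd x hx).deriv
    · exact hq
    · exact hv
  have h2 : Tendsto (fun T : ℝ => A (T * I)) atTop (𝓝 (A v)) := by
    refine tendsto_const_nhds.congr' ?_
    filter_upwards [eventually_gt_atTop 0] with T hT
    refine (h1 _ (mem_Om.2 ⟨?_, ?_, ?_⟩)).symm
    · rw [re_ofReal_mul, I_re]
      norm_num
    · rw [re_ofReal_mul, I_re]
      norm_num
    · rw [im_ofReal_mul, I_im, mul_one]
      exact hT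
  exact tendsto_nhds_unique h2 hl

theorem zero_of_exp {A : ℂ → ℂ} (hd : ∀ v ∈ Om, DifferentiableAt ℂ A v)
    (he : ∀ v ∈ Om, exp (A v) = 1) (hl : Tendsto (fun T : ℝ => A (T * I)) atTop (𝓝 0)) {v : ℂ}
    (hv : v ∈ Om) : A v = 0 := by
  refine zero_of_deriv (fun w hw => ?_) hl hv
  have h1 := (hd w hw).hasDerivAt
  have h2 : HasDerivAt (fun v => exp (A v)) (exp (A w) * deriv A w) w := h1.cexp
  have h3 : HasDerivAt (fun v => exp (A v)) 0 w := by
    refine (hasDerivAt_const w (1 : ℂ)).congr_of_eventuallyEq ?_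
    filter_upwards [Om_open.mem_nhds hw] with x hx
    exact he x hx
  have h4 := h2.unique h3
  rw [he w hw, one_mul] at h4
  rw [h4] at h1
  exact h1

/-! ### Explicit forms -/

theorem exp_neg_sub {v : ℂ} (hv : v ∈ Om) :
    exp (-(2 * Real.pi * I * (y1 v - v))) = tt v ^ 2 * (YY v)⁻¹ := by
  have e : -(2 * Real.pi * I * (y1 v - v)) = Real.pi * I * v + Real.pi * I * v +
      -(2 * Real.pi * I * y1 v) := by ring
  rw [e, exp_add, exp_add, exp_neg, y1_exp hv, sq]
  rfl

theorem exp_add' {v : ℂ} (hv : v ∈ Om) :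
    exp (2 * Real.pi * I * (y1 v + v)) = YY v * tt v ^ 2 := by
  have e : 2 * Real.pi * I * (y1 v + v) = 2 * Real.pi * I * y1 v + (Real.pi * I * v +
      Real.pi * I * v) := by ring
  rw [e, exp_add, exp_add, y1_exp hv, sq]
  rfl

theorem exp_neg_half {v : ℂ} (hv : v ∈ Om) :
    exp (-(2 * Real.pi * I * (y1 v + 1 / 2))) = -(YY v)⁻¹ := by
  have e : -(2 * Real.pi * I * (y1 v + 1 / 2)) = -(Real.pi * I) + -(2 * Real.pi * I * y1 v) := by
    ring
  rw [e, exp_add, exp_neg, exp_neg, y1_exp hv, exp_pi_mul_I]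
  norm_num

theorem half_re (v : ℂ) : (y1 v + 1 / 2).re = (y1 v).re + 1 / 2 := by
  rw [Complex.add_re]
  norm_num

theorem half_im (v : ℂ) : (y1 v + 1 / 2).im = (y1 v).im := by
  rw [Complex.add_im]
  norm_num

theorem hh_c {v : ℂ} (hv : v ∈ Om) :
    hh (y1 v + 1 / 2) = log (1 + (YY v)⁻¹) + Real.pi * I * y1 v := by
  obtain ⟨h1, h2⟩ := y1_re hv
  have h3 : (y1 v + 1 / 2).im < 0 := by
    rw [half_im]
    exact y1_im hv
  rw [← he_eq_hh (by rw [half_re]; linarith) (by rw [half_re]; linarith), he,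
    if_neg (not_lt.2 h3.le), if_pos h3, exp_neg_half hv]
  rw [show (y1 v + 1 / 2 - 1 / 2 : ℂ) = y1 v by ring, sub_neg_eq_add]

theorem he_m {v : ℂ} (hv : v ∈ Om) :
    he (y1 v - v) = log (1 - tt v ^ 2 * (YY v)⁻¹) + Real.pi * I * (y1 v - v - 1 / 2) := by
  have h3 := d1 hv
  rw [he, if_neg (not_lt.2 h3.le), if_pos h3, exp_neg_sub hv]

theorem he_p {v : ℂ} (hv : v ∈ Om) (h : 0 < (y1 v + v).im) :
    he (y1 v + v) = log (1 - YY v * tt v ^ 2) - Real.pi * I * (y1 v + v - 1 / 2) := by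
  rw [he, if_pos h, exp_add' hv]

theorem ff_c {v : ℂ} (hv : v ∈ Om) :
    ff (y1 v + 1 / 2) = (-dilog (-(YY v)⁻¹) + (Real.pi : ℂ) ^ 2 * ((y1 v + 1 / 2) ^ 2 -
      (y1 v + 1 / 2) + 1 / 6)) / (-(2 * Real.pi * I)) := by
  obtain ⟨h1, h2⟩ := y1_re hv
  have h3 : (y1 v + 1 / 2).im < 0 := by
    rw [half_im]
    exact y1_im hv
  rw [← fe_eq_ff (by rw [half_re]; linarith) (by rw [half_re]; linarith), fe,
    if_neg (not_lt.2 h3.le), if_pos h3, exp_neg_half hv]

theorem fe_m {v : ℂ} (hv : v ∈ Om) :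
    fe (y1 v - v) = (-dilog (tt v ^ 2 * (YY v)⁻¹) + (Real.pi : ℂ) ^ 2 * ((y1 v - v) ^ 2 -
      (y1 v - v) + 1 / 6)) / (-(2 * Real.pi * I)) := by
  have h3 := d1 hv
  rw [fe, if_neg (not_lt.2 h3.le), if_pos h3, exp_neg_sub hv]

theorem fe_p {v : ℂ} (hv : v ∈ Om) (h : 0 < (y1 v + v).im) :
    fe (y1 v + v) = (-dilog (YY v * tt v ^ 2) + (Real.pi : ℂ) ^ 2 * ((y1 v + v) ^ 2 -
      (y1 v + v) + 1 / 6)) / (2 * Real.pi * I) := by
  rw [fe, if_pos h, exp_add' hv]

/-! ### Limits along the imaginary axis -/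

theorem ray_mem {T : ℝ} (hT : 0 < T) : (T * I : ℂ) ∈ Om := by
  refine mem_Om.2 ⟨?_, ?_, ?_⟩
  · rw [re_ofReal_mul, I_re]
    norm_num
  · rw [re_ofReal_mul, I_re]
    norm_num
  · rw [im_ofReal_mul, I_im, mul_one]
    exact hT

theorem lim_tt : Tendsto (fun T : ℝ => tt (T * I)) atTop (𝓝 0) := by
  rw [tendsto_zero_iff_norm_tendsto_zero]
  have e : ∀ T : ℝ, ‖tt (T * I)‖ = Real.exp (-(Real.pi * T)) := by
    intro T
    rw [norm_tt, im_ofReal_mul, I_im, mul_one]
  simp only [e]
  have h1 : Tendsto (fun T : ℝ => -(Real.pi * T)) atTop atBot :=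
    tendsto_neg_atTop_atBot.comp (tendsto_id.const_mul_atTop Real.pi_pos)
  exact Real.tendsto_exp_atBot.comp h1

theorem YY_mul_tt (v : ℂ) : YY v * tt v = I * (tt v ^ 2 + 1) - tt v := by
  rw [YY_tt]
  have := tt_ne v
  field_simp
  ring

theorem lim_Yt : Tendsto (fun T : ℝ => YY (T * I) * tt (T * I)) atTop (𝓝 I) := by
  simp only [YY_mul_tt]
  have h := (((lim_tt.pow 2).add_const 1).const_mul I).sub lim_tt
  rw [show I * ((0 : ℂ) ^ 2 + 1) - 0 = I by ring] at h
  exact h

theorem lim_Yi : Tendsto (fun T : ℝ => (YY (T * I))⁻¹) atTop (𝓝 0) := by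
  have h := lim_tt.mul (lim_Yt.inv₀ I_ne_zero)
  rw [zero_mul] at h
  refine h.congr fun T => ?_
  have h1 := tt_ne (T * I)
  rw [mul_inv, mul_comm (YY (T * I))⁻¹, ← mul_assoc, mul_inv_cancel₀ h1, one_mul]

theorem lim_ttY : Tendsto (fun T : ℝ => tt (T * I) ^ 2 * (YY (T * I))⁻¹) atTop (𝓝 0) := by
  have h := (lim_tt.pow 2).mul lim_Yi
  rw [show ((0 : ℂ) ^ 2 * 0) = 0 by ring] at h
  exact h

theorem lim_Ytt : Tendsto (fun T : ℝ => YY (T * I) * tt (T * I) ^ 2) atTop (𝓝 0) := by
  have h := lim_Yt.mul lim_tt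
  rw [mul_zero] at h
  refine h.congr fun T => ?_
  ring

theorem im_pos_ev : ∀ᶠ T : ℝ in atTop, 0 < (y1 (T * I) + T * I).im := by
  have h1 := lim_Ytt.norm
  rw [norm_zero] at h1
  filter_upwards [h1.eventually (gt_mem_nhds one_pos), eventually_gt_atTop 0] with T h2 hT
  rw [← exp_add' (ray_mem hT), Complex.norm_exp, Real.exp_lt_one_iff, re_2piI] at h2
  have := Real.pi_pos
  by_contra hc
  push Not at hc
  nlinarith

theorem lim_w : Tendsto (fun T : ℝ => y1 (T * I) + T * I / 2) atTop (𝓝 (1 / 4)) := by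
  have h0 : (I : ℂ) ∈ slitPlane := Or.inr (by rw [I_im]; exact one_ne_zero)
  have h1 := (continuousAt_clog h0).tendsto.comp lim_Yt
  have h2 := h1.div_const (2 * Real.pi * I)
  have h3 : log I / (2 * Real.pi * I) = 1 / 4 := by
    rw [log_I]
    have := Real.pi_pos
    have hpi : (Real.pi : ℂ) ≠ 0 := by exact_mod_cast Real.pi_ne_zero
    have := I_ne_zero
    field_simp
    norm_num
  rw [h3] at h2
  refine h2.congr' ?_
  filter_upwards [eventually_gt_atTop 0] with T hT
  have hv := ray_mem hT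
  have hpi := Real.pi_pos
  have hre : (y1 (T * I) + T * I / 2).re = (y1 (T * I)).re := by
    have : (T * I / 2 : ℂ) = ((T / 2 : ℝ) : ℂ) * I := by push_cast; ring
    rw [this, add_re, re_ofReal_mul, I_re, mul_zero, add_zero]
  obtain ⟨k1, k2⟩ := y1_re hv
  have e1 : YY (T * I) * tt (T * I) = exp (2 * Real.pi * I * (y1 (T * I) + T * I / 2)) := by
    rw [mul_add, exp_add, y1_exp hv]
    congr 1
    unfold tt
    congr 1
    ring
  show log (YY (T * I) * tt (T * I)) / (2 * Real.pi * I) = _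
  rw [e1, log_exp]
  · rw [mul_div_cancel_left₀]
    exact Complex.two_pi_I_ne_zero
  · rw [im_2piI, hre]
    nlinarith
  · rw [im_2piI, hre]
    nlinarith

theorem lim_log {f : ℝ → ℂ} (hf : Tendsto f atTop (𝓝 1)) :
    Tendsto (fun T => log (f T)) atTop (𝓝 0) := by
  have h := (continuousAt_clog one_mem_slitPlane).tendsto.comp hf
  rw [log_one] at h
  exact h

theorem lim_dilog {f : ℝ → ℂ} (hf : Tendsto f atTop (𝓝 0)) :
    Tendsto (fun T => dilog (f T)) atTop (𝓝 0) := by
  have h := dilog_continuous_zero.tendsto.comp hf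
  rw [dilog_zero] at h
  exact h

/-! ### The equations -/

/-- The critical equation of the edge. -/
theorem eqA {v : ℂ} (hv : v ∈ Om) :
    3 * hh (y1 v + 1 / 2) - he (y1 v - v) - he (y1 v + v) - Real.pi * I * (1 - y1 v) = 0 := by
  refine zero_of_exp (A := fun v => 3 * hh (y1 v + 1 / 2) - he (y1 v - v) - he (y1 v + v) -
    Real.pi * I * (1 - y1 v)) ?_ ?_ ?_ hv
  · intro v hv
    obtain ⟨h1, h2⟩ := y1_re hv
    have k0 := y1_diff hv
    have k1 : DifferentiableAt ℂ (fun v => hh (y1 v + 1 / 2)) v :=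
      DifferentiableAt.comp (g := hh) (f := fun v => y1 v + 1 / 2) v
        (Pot_hh_deriv (by rw [half_re]; linarith) (by rw [half_re]; linarith)).differentiableAt
        (k0.add_const _)
    have k2 : DifferentiableAt ℂ (fun v => he (y1 v - v)) v :=
      DifferentiableAt.comp (g := he) (f := fun v => y1 v - v) v
        (he_hasDerivAt (Or.inl (d1 hv).ne)).differentiableAt (k0.sub differentiableAt_id)
    have k3 : DifferentiableAt ℂ (fun v => he (y1 v + v)) v :=
      DifferentiableAt.comp (g := he) (f := fun v => y1 v + v) v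
        (he_hasDerivAt (Or.inr (d2 hv))).differentiableAt (k0.add differentiableAt_id)
    exact (((k1.const_mul 3).sub k2).sub k3).sub ((k0.const_sub 1).const_mul _)
  · intro v hv
    have e : 3 * hh (y1 v + 1 / 2) - he (y1 v - v) - he (y1 v + v) - Real.pi * I * (1 - y1 v) =
        (hh (y1 v + 1 / 2) + hh (y1 v + 1 / 2) + hh (y1 v + 1 / 2)) - he (y1 v - v) -
          he (y1 v + v) - (Real.pi * I - Real.pi * I * y1 v) := by ring
    have e2 : exp (Real.pi * I * y1 v) = ee v := rfl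
    rw [e, exp_sub, exp_sub, exp_sub, exp_add, exp_add, exp_sub, exp_hh_half hv, exp_he_sub hv,
      exp_he_add hv, exp_pi_mul_I, e2]
    have hs := ee_sq hv
    have h1 := ee_ne v
    have h2 := tt_ne v
    have hne1 := exp_ne_zero (he (y1 v - v))
    have hne2 := exp_ne_zero (he (y1 v + v))
    rw [exp_he_sub hv] at hne1
    rw [exp_he_add hv] at hne2
    revert hs h1 h2 hne1 hne2
    generalize ee v = x
    generalize tt v = t
    intro hs h1 h2 hne1 hne2
    have hs' : t * (x ^ 2 + 1) = I * (t ^ 2 + 1) := by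
      rw [hs]
      field_simp
      ring
    rw [div_eq_one_iff_eq (div_ne_zero (by norm_num) h1), div_div, div_eq_iff (mul_ne_zero hne1 hne2)]
    have key : (x ^ 2 + 1) ^ 3 * t ^ 2 = (x ^ 2 - t ^ 2) * (x ^ 2 * t ^ 2 - 1) := by
      linear_combination (x ^ 2 * (I * (t ^ 2 + 1) + t * (x ^ 2 + 1))) * hs' +
        (x ^ 2 * (t ^ 2 + 1) ^ 2) * I_sq
    field_simp
    linear_combination key + (x ^ 4 * t ^ 2 + t ^ 2 - x ^ 2 - x ^ 2 * t ^ 4) * I_sq
  · have hA : Tendsto (fun T : ℝ => 3 * log (1 + (YY (T * I))⁻¹) -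
        log (1 - tt (T * I) ^ 2 * (YY (T * I))⁻¹) - log (1 - YY (T * I) * tt (T * I) ^ 2) +
        4 * Real.pi * I * (y1 (T * I) + T * I / 2 - 1 / 4)) atTop (𝓝 0) := by
      have a1 := lim_log (by simpa using lim_Yi.const_add 1)
      have a2 := lim_log (by simpa using lim_ttY.const_sub 1)
      have a3 := lim_log (by simpa using lim_Ytt.const_sub 1)
      have a4 := (lim_w.sub_const (1 / 4)).const_mul (4 * Real.pi * I : ℂ)
      rw [sub_self, mul_zero] at a4
      have a5 := (((a1.const_mul 3).sub a2).sub a3).add a4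
      simpa using a5
    refine hA.congr' ?_
    filter_upwards [im_pos_ev, eventually_gt_atTop 0] with T h1 hT
    have hv := ray_mem hT
    rw [hh_c hv, he_m hv, he_p hv h1]
    ring

theorem one_add_slit {v : ℂ} (h : 0 < v.im) : 1 + I * tt v ∈ slitPlane ∧
    1 - I * tt v ∈ slitPlane := by
  have h1 := norm_tt_lt h
  have h2 : ‖I * tt v‖ < 1 := by rwa [norm_mul, norm_I, one_mul]
  have h3 := (abs_re_le_norm (I * tt v)).trans_lt h2
  have h4 := abs_lt.1 h3
  constructor
  · refine Or.inl ?_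
    rw [add_re, one_re]
    linarith
  · refine Or.inl ?_
    rw [sub_re, one_re]
    linarith

theorem one_add_sq_ne {v : ℂ} (h : 0 < v.im) : 1 + tt v ^ 2 ≠ 0 := by
  intro h0
  have h1 := norm_tt_lt h
  have h2 : tt v ^ 2 = -1 := by linear_combination h0
  have h3 := congrArg norm h2
  rw [norm_pow, norm_neg, norm_one] at h3
  have := norm_nonneg (tt v)
  nlinarith

/-- The equation of the node: the part of the meridian at the edge. -/
theorem eqB {v : ℂ} (hv : v ∈ Om) :
    he (y1 v - v) - he (y1 v + v) = -(Real.pi * I / 2) - Real.pi * I * v +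
      log (1 + I * tt v) - log (1 - I * tt v) := by
  rw [← sub_eq_zero]
  refine zero_of_exp (A := fun v => he (y1 v - v) - he (y1 v + v) -
    (-(Real.pi * I / 2) - Real.pi * I * v + log (1 + I * tt v) - log (1 - I * tt v))) ?_ ?_ ?_ hv
  · intro v hv
    have k0 := y1_diff hv
    have k2 : DifferentiableAt ℂ (fun v => he (y1 v - v)) v :=
      DifferentiableAt.comp (g := he) (f := fun v => y1 v - v) v
        (he_hasDerivAt (Or.inl (d1 hv).ne)).differentiableAt (k0.sub differentiableAt_id)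
    have k3 : DifferentiableAt ℂ (fun v => he (y1 v + v)) v :=
      DifferentiableAt.comp (g := he) (f := fun v => y1 v + v) v
        (he_hasDerivAt (Or.inr (d2 hv))).differentiableAt (k0.add differentiableAt_id)
    have kt := (tt_hasDerivAt v).differentiableAt
    have s := one_add_slit (mem_Om.1 hv).2.2
    have k4 : DifferentiableAt ℂ (fun v => log (1 + I * tt v)) v :=
      ((kt.const_mul I).const_add 1).clog s.1
    have k5 : DifferentiableAt ℂ (fun v => log (1 - I * tt v)) v :=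
      ((kt.const_mul I).const_sub 1).clog s.2
    exact (k2.sub k3).sub ((((differentiableAt_const _).sub (differentiableAt_id.const_mul _)).add
      k4).sub k5)
  · intro v hv
    have s := one_add_slit (mem_Om.1 hv).2.2
    have hq := one_add_sq_ne (mem_Om.1 hv).2.2
    have e : he (y1 v - v) - he (y1 v + v) -
        (-(Real.pi * I / 2) - Real.pi * I * v + log (1 + I * tt v) - log (1 - I * tt v)) =
        he (y1 v - v) - he (y1 v + v) + Real.pi / 2 * I + Real.pi * I * v -
          log (1 + I * tt v) + log (1 - I * tt v) := by ring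
    have e2 : exp (Real.pi * I * v) = tt v := rfl
    rw [e, exp_add, exp_sub, exp_add, exp_add, exp_sub, exp_he_sub hv, exp_he_add hv,
      exp_pi_div_two_mul_I, e2, exp_log (slitPlane_ne_zero s.1), exp_log (slitPlane_ne_zero s.2)]
    have hs := ee_sq hv
    have h1 := ee_ne v
    have h2 := tt_ne v
    have hne1 := slitPlane_ne_zero s.1
    have hne3 := exp_ne_zero (he (y1 v + v))
    rw [exp_he_add hv] at hne3
    revert hs h1 h2 hne1 hne3 hq
    generalize ee v = x
    generalize tt v = t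
    intro hq hs h1 h2 hne1 hne3
    have hs' : t * (x ^ 2 + 1) = I * (t ^ 2 + 1) := by
      rw [hs]
      field_simp
      ring
    have hne4 : x ^ 2 * t ^ 2 - 1 ≠ 0 := by
      intro h0
      apply hne3
      have : x * t - 1 / (x * t) = 0 := by
        field_simp
        linear_combination h0
      rw [this, mul_zero]
    have e3 : -I * (x / t - t / x) / (-I * (x * t - 1 / (x * t))) =
        (x ^ 2 - t ^ 2) / (x ^ 2 * t ^ 2 - 1) := by
      rw [mul_div_mul_left _ _ (neg_ne_zero.2 I_ne_zero), div_eq_div_iff ?_ hne4]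
      · field_simp
      · intro h0
        rw [h0, mul_zero] at hne3
        exact hne3 rfl
    have key : (x ^ 2 - t ^ 2) * I * t * (1 - I * t) = (x ^ 2 * t ^ 2 - 1) * (1 + I * t) := by
      linear_combination (I * (1 - I * t) - t * (1 + I * t)) * hs' +
        ((t ^ 2 + 1) * (1 - I * t)) * I_sq
    rw [e3]
    have e4 : (x ^ 2 - t ^ 2) / (x ^ 2 * t ^ 2 - 1) * I * t / (1 + I * t) * (1 - I * t) =
        ((x ^ 2 - t ^ 2) * I * t * (1 - I * t)) / ((x ^ 2 * t ^ 2 - 1) * (1 + I * t)) := by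
      field_simp
    rw [e4, key, div_self (mul_ne_zero hne4 hne1)]
  · have hA : Tendsto (fun T : ℝ =>
        log (1 - tt (T * I) ^ 2 * (YY (T * I))⁻¹) - log (1 - YY (T * I) * tt (T * I) ^ 2) -
        log (1 + I * tt (T * I)) + log (1 - I * tt (T * I)) +
        2 * Real.pi * I * (y1 (T * I) + T * I / 2 - 1 / 4)) atTop (𝓝 0) := by
      have a2 := lim_log (by simpa using lim_ttY.const_sub 1)
      have a3 := lim_log (by simpa using lim_Ytt.const_sub 1)
      have a5 := lim_log (by simpa using (lim_tt.const_mul I).const_add 1)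
      have a6 := lim_log (by simpa using (lim_tt.const_mul I).const_sub 1)
      have a4 := (lim_w.sub_const (1 / 4)).const_mul (2 * Real.pi * I : ℂ)
      rw [sub_self, mul_zero] at a4
      have a7 := (((a2.sub a3).sub a5).add a6).add a4
      simpa using a7
    refine hA.congr' ?_
    filter_upwards [im_pos_ev, eventually_gt_atTop 0] with T h1 hT
    have hv := ray_mem hT
    rw [he_m hv, he_p hv h1]
    ring

theorem zero_of_deriv' {A : ℂ → ℂ} (hd : ∀ v ∈ Om, HasDerivAt A 0 v) {c : ℂ}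
    (hl : Tendsto (fun T : ℝ => A (T * I)) atTop (𝓝 c)) {v : ℂ} (hv : v ∈ Om) : A v = c := by
  have h := zero_of_deriv (A := fun v => A v - c) (fun w hw => (hd w hw).sub_const c) ?_ hv
  · exact sub_eq_zero.1 h
  · have := hl.sub_const c
    rwa [sub_self] at this

/-- The potential of the edge of a clasp. -/
noncomputable def PC (s : ℤ) (y v : ℂ) : ℂ :=
  3 * ff (y + 1 / 2) - fe (y - v) - fe (y + v) - Real.pi * I * s * (y - y ^ 2 / 2 - 7 / 8)

/-- Its critical value. -/
noncomputable def cE (s : ℤ) (v : ℂ) : ℂ :=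
  -(Real.pi * I * v / 2) - s * (Real.pi * I * v ^ 2 / 2) + 5 * s * (Real.pi * I / 8) +
    (dilog (I * tt v) - dilog (-(I * tt v))) / (Real.pi * I)

theorem PC_deriv {v : ℂ} (hv : v ∈ Om) : HasDerivAt (fun v => PC 1 (y1 v) v)
    (he (y1 v - v) - he (y1 v + v)) v := by
  obtain ⟨h1, h2⟩ := y1_re hv
  have k0 := (y1_diff hv).hasDerivAt
  have k1 : HasDerivAt (fun v => ff (y1 v + 1 / 2)) (hh (y1 v + 1 / 2) * deriv y1 v) v :=
    HasDerivAt.comp (h₂ := ff) (h := fun v => y1 v + 1 / 2) v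
      (ff_hasDerivAt _ (by rw [half_re]; linarith) (by rw [half_re]; linarith))
      (k0.add_const (1 / 2))
  have k2 : HasDerivAt (fun v => fe (y1 v - v)) (he (y1 v - v) * (deriv y1 v - 1)) v :=
    HasDerivAt.comp (h₂ := fe) (h := fun v => y1 v - v) v
      (fe_hasDerivAt (Or.inl (d1 hv).ne)) (k0.sub (hasDerivAt_id v))
  have k3 : HasDerivAt (fun v => fe (y1 v + v)) (he (y1 v + v) * (deriv y1 v + 1)) v :=
    HasDerivAt.comp (h₂ := fe) (h := fun v => y1 v + v) v
      (fe_hasDerivAt (Or.inr (d2 hv))) (k0.add (hasDerivAt_id v))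
  have k4 := ((k0.sub ((k0.pow 2).div_const 2)).sub_const (7 / 8)).const_mul
    (Real.pi * I * ((1 : ℤ) : ℂ))
  have k5 := (((k1.const_mul 3).sub k2).sub k3).sub k4
  refine HasDerivAt.congr_deriv k5 ?_
  push_cast
  linear_combination (deriv y1 v) * eqA hv

theorem cE_deriv {v : ℂ} (h : 0 < v.im) (s : ℤ) : HasDerivAt (cE s)
    (-(Real.pi * I / 2) - s * (Real.pi * I * v) + log (1 + I * tt v) - log (1 - I * tt v)) v := by
  have hs := one_add_slit h
  have kt := tt_hasDerivAt v
  have h2 : ‖I * tt v‖ < 1 := by rw [norm_mul, norm_I, one_mul]; exact norm_tt_lt h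
  have hne : I * tt v ≠ 0 := mul_ne_zero I_ne_zero (tt_ne v)
  have hs2 : 1 - -(I * tt v) ∈ slitPlane := by rw [sub_neg_eq_add]; exact hs.1
  have kI : HasDerivAt (fun v => I * tt v) (I * (Real.pi * I * tt v)) v := kt.const_mul I
  have k1 : HasDerivAt (fun v => dilog (I * tt v))
      (-(log (1 - I * tt v) / (I * tt v)) * (I * (Real.pi * I * tt v))) v :=
    HasDerivAt.comp (h₂ := dilog) (h := fun v => I * tt v) v (dilog_hasDerivAt _ hne hs.2) kI
  have k2 : HasDerivAt (fun v => dilog (-(I * tt v)))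
      (-(log (1 - -(I * tt v)) / (-(I * tt v))) * (-(I * (Real.pi * I * tt v)))) v :=
    HasDerivAt.comp (h₂ := dilog) (h := fun v => -(I * tt v)) v
      (dilog_hasDerivAt _ (neg_ne_zero.2 hne) hs2) kI.neg
  have k3 : HasDerivAt (fun v : ℂ => -(Real.pi * I * v / 2)) (-(Real.pi * I / 2)) v := by
    refine HasDerivAt.congr_deriv (f := fun v : ℂ => -(Real.pi * I * v / 2))
      (((hasDerivAt_id v).const_mul (Real.pi * I : ℂ)).div_const 2).neg ?_
    ring
  have k4 : HasDerivAt (fun v : ℂ => (s : ℂ) * (Real.pi * I * v ^ 2 / 2))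
      (s * (Real.pi * I * (2 * v) / 2)) v := by
    have := ((((hasDerivAt_id v).pow 2).const_mul (Real.pi * I : ℂ)).div_const 2).const_mul (s : ℂ)
    simpa using this
  have k5 := ((k3.sub k4).add_const (5 * s * (Real.pi * I / 8) : ℂ)).add
    ((k1.sub k2).div_const (Real.pi * I))
  refine HasDerivAt.congr_deriv k5 ?_
  have hpi : (Real.pi : ℂ) ≠ 0 := by exact_mod_cast Real.pi_ne_zero
  have hI := I_ne_zero
  have ht := tt_ne v
  rw [sub_neg_eq_add]
  field_simp
  ring

theorem lim_quad : Tendsto (fun T : ℝ => 2 * Real.pi * I * (y1 (T * I) + T * I / 2 - 1 / 4) ^ 2)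
    atTop (𝓝 0) := by
  have a4 := ((lim_w.sub_const (1 / 4)).pow 2).const_mul (2 * Real.pi * I : ℂ)
  simpa using a4

/-- The value of the potential. -/
theorem PC_eq {v : ℂ} (hv : v ∈ Om) : PC 1 (y1 v) v = cE 1 v := by
  rw [← sub_eq_zero]
  refine zero_of_deriv (A := fun v => PC 1 (y1 v) v - cE 1 v) (fun w hw => ?_) ?_ hv
  · refine ((PC_deriv hw).sub (cE_deriv (mem_Om.1 hw).2.2 1)).congr_deriv ?_
    rw [eqB hw]
    push_cast
    ring
  · have hA : Tendsto (fun T : ℝ =>
        (3 * dilog (-(YY (T * I))⁻¹) - dilog (tt (T * I) ^ 2 * (YY (T * I))⁻¹) +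
          dilog (YY (T * I) * tt (T * I) ^ 2) - 2 * dilog (I * tt (T * I)) +
          2 * dilog (-(I * tt (T * I)))) / (2 * Real.pi * I) +
        2 * Real.pi * I * (y1 (T * I) + T * I / 2 - 1 / 4) ^ 2) atTop (𝓝 0) := by
      have a1 := lim_dilog (by simpa using lim_Yi.neg)
      have a2 := lim_dilog lim_ttY
      have a3 := lim_dilog lim_Ytt
      have a5 := lim_dilog (by simpa using lim_tt.const_mul I)
      have a6 := lim_dilog (by simpa using (lim_tt.const_mul I).neg)
      have a7 := ((((((a1.const_mul 3).sub a2).add a3).sub (a5.const_mul 2)).add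
        (a6.const_mul 2)).div_const (2 * Real.pi * I)).add lim_quad
      simpa using a7
    refine hA.congr' ?_
    filter_upwards [im_pos_ev, eventually_gt_atTop 0] with T h1 hT
    have hv := ray_mem hT
    unfold PC cE
    rw [ff_c hv, fe_m hv, fe_p hv h1]
    have hpi : (Real.pi : ℂ) ≠ 0 := by exact_mod_cast Real.pi_ne_zero
    have hI := I_ne_zero
    push_cast
    have e1 : ∀ x : ℂ, x / (-(2 * Real.pi * I)) = x * (I / (2 * Real.pi)) := by
      intro x
      field_simp
      linear_combination (-x) * I_sq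
    have e2 : ∀ x : ℂ, x / (2 * Real.pi * I) = -x * (I / (2 * Real.pi)) := by
      intro x
      field_simp
      linear_combination (x) * I_sq
    have e3 : ∀ x : ℂ, x / (Real.pi * I) = -x * (I / Real.pi) := by
      intro x
      field_simp
      linear_combination (x) * I_sq
    simp only [e1, e2, e3]
    field_simp
    ring

end Pool.Agent.AT2
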