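import Pool.Agent.AT2.Clo
import Pool.Agent.S3.G.FeBw

/-!
# Project AT2: the edge of a clasp, for both signs, and its volume
-/

namespace Pool.Agent.AT2

open Complex Pool.Agent.H63.VC Pool.Agent.H63.VC3 Pool.Agent.H63.VC5 Filter Topology
open Pool.Agent.S3 Pool.Agent.S3.G
open scoped ComplexConjugate

/-- The range of the variable of the node at a clasp of weight `2 s`. -/
def Rg (s : ℤ) (v : ℂ) : Prop := (s = 1 ∧ v ∈ Om) ∨ (s = -1 ∧ -conj v ∈ Om)

/-- What is used of the edge of a clasp. -/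
structure ClE (s : ℤ) (y v : ℂ) : Prop where
  sg : s = 1 ∨ s = -1
  dom : sdom y (.op v)
  v0 : 0 < v.im
  vr : |v.re| < 1 / 2
  ey : 3 * hh (y + 1 / 2) - he (y - v) - he (y + v) - Real.pi * I * s * (1 - y) = 0
  mu : he (y - v) - he (y + v) = -(Real.pi * I / 2) - s * (Real.pi * I * v) +
    log (1 + I * tt v) - log (1 - I * tt v)
  val : PC s y v = cE s v

theorem Om_abs {v : ℂ} (hv : v ∈ Om) : |v.re| < 1 / 2 := by
  obtain ⟨h1, h2, h3⟩ := mem_Om.1 hv
  rw [abs_lt]
  constructor <;> linarith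

theorem clE_one {v : ℂ} (hv : v ∈ Om) : ClE 1 (yC 1 v) v := by
  rw [yC_one]
  refine ⟨Or.inl rfl, sdom_1 hv, (mem_Om.1 hv).2.2, Om_abs hv, ?_, ?_, PC_eq hv⟩
  · have := eqA hv
    push_cast
    linear_combination this
  · have := eqB hv
    push_cast
    linear_combination this

theorem tt_conj (w : ℂ) : tt (-conj w) = conj (tt w) := by
  unfold tt
  rw [← exp_conj]
  congr 1
  simp only [map_mul, conj_I, conj_ofReal]
  ring

theorem yC_conj {w : ℂ} (hw : w ∈ Om) : yC (-1) (-conj w) = conj (y1 w) := by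
  have h1 : ¬ ((-1 : ℤ) = 1) := by decide
  have h2 : (-1 - 2 * I * cos (Real.pi * -conj w) : ℂ) = conj (YY w) := by
    unfold YY
    rw [map_add, map_neg, map_one, map_mul, map_mul, ← cos_conj, conj_I, Complex.conj_ofNat,
      map_mul, conj_ofReal, mul_neg, Complex.cos_neg]
    ring
  have h3 : arg (YY w) ≠ Real.pi := (mem_slitPlane_iff_arg.1 (YY_slit hw)).1
  unfold yC y1
  rw [if_neg h1, h2, Complex.log_conj _ h3, map_div₀]
  simp only [map_mul, conj_I, conj_ofReal, Complex.conj_ofNat]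
  have hpi : (Real.pi : ℂ) ≠ 0 := by exact_mod_cast Real.pi_ne_zero
  have hI := I_ne_zero
  field_simp

theorem PC_eq_sP (s : ℤ) (y v : ℂ) : PC s y v = sP y (.op v) + sP y (.cl s) := by
  unfold PC sP
  ring

theorem ey_op_cl (s : ℤ) (y v : ℂ) : ey y (.op v) + ey y (.cl s) =
    3 * hh (y + 1 / 2) - he (y - v) - he (y + v) - Real.pi * I * s * (1 - y) := by
  show (2 * hh (y + 1 / 2) - he (y - v) - he (y + v)) +
    (hh (y + 1 / 2) - Real.pi * I * s * (1 - y)) = _
  ring

theorem clE_neg {w : ℂ} (hw : w ∈ Om) : ClE (-1) (yC (-1) (-conj w)) (-conj w) := by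
  rw [yC_conj hw]
  obtain ⟨y0, y1'⟩ := y1_re hw
  have hd := sdom_1 hw
  have h0 := (mem_Om.1 hw).2.2
  have hs := one_add_slit h0
  have hn := norm_tt_lt h0
  refine ⟨Or.inr rfl, sdom_conj hd, ?_, ?_, ?_, ?_, ?_⟩
  · rw [neg_im, conj_im, neg_neg]
    exact h0
  · rw [neg_re, conj_re, abs_neg]
    exact Om_abs hw
  · rw [← ey_op_cl, ey_conj hd, ey_conj_cl 1 y0 y1', ← map_add, ey_op_cl]
    have := eqA hw
    push_cast
    rw [mul_one, this, map_zero]
  · have k := ev_conj hd
    have k2 := eqB hw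
    unfold ev at k
    rw [k, k2, tt_conj]
    have a1 : log (1 + I * conj (tt w)) = conj (log (1 - I * tt w)) := by
      rw [← Complex.log_conj _ (mem_slitPlane_iff_arg.1 hs.2).1]
      congr 1
      simp only [map_sub, map_one, map_mul, conj_I]
      ring
    have a2 : log (1 - I * conj (tt w)) = conj (log (1 + I * tt w)) := by
      rw [← Complex.log_conj _ (mem_slitPlane_iff_arg.1 hs.1).1]
      congr 1
      simp only [map_add, map_one, map_mul, conj_I]
      ring
    rw [a1, a2]
    simp only [map_sub, map_add, map_neg, map_div₀, map_mul, conj_I, conj_ofReal,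
      Complex.conj_ofNat]
    push_cast
    ring
  · rw [PC_eq_sP, sP_conj hd, sP_conj_cl _ 1, ← map_add, ← PC_eq_sP, PC_eq hw]
    unfold cE
    rw [tt_conj]
    have hI : ‖I * tt w‖ < 1 := by rwa [norm_mul, norm_I, one_mul]
    have a1 : dilog (I * conj (tt w)) = conj (dilog (-(I * tt w))) := by
      rw [← dilog_conj _ (by rwa [norm_neg])]
      congr 1
      simp only [map_neg, map_mul, conj_I]
      ring
    have a2 : dilog (-(I * conj (tt w))) = conj (dilog (I * tt w)) := by
      rw [← dilog_conj _ hI]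
      congr 1
      simp only [map_mul, conj_I]
      ring
    rw [a1, a2]
    have hpi : (Real.pi : ℂ) ≠ 0 := by exact_mod_cast Real.pi_ne_zero
    have hI := I_ne_zero
    simp only [map_sub, map_add, map_neg, map_div₀, map_mul, map_pow, conj_I, conj_ofReal,
      Complex.conj_ofNat, map_intCast]
    push_cast
    field_simp
    ring

theorem clE {s : ℤ} {v : ℂ} (h : Rg s v) : ClE s (yC s v) v := by
  rcases h with ⟨rfl, h⟩ | ⟨rfl, h⟩
  · exact clE_one h
  · have := clE_neg h
    rwa [map_neg, conj_conj, neg_neg] at this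

/-! ### The volume -/

/-- **The volume of the block of a clasp.** -/
theorem ClE.vol {s : ℤ} {y v : ℂ} (h : ClE s y v) : 2 * Real.pi * (PC s y v).re =
    2 * blochWigner (I * exp (Real.pi * I * v)) + 2 * blochWigner (I * exp (-(Real.pi * I * v))) -
      2 * Real.pi * (v.im * (he (y - v) - he (y + v)).im) := by
  have hpi := Real.pi_pos
  have hpc : (Real.pi : ℂ) ≠ 0 := by exact_mod_cast Real.pi_ne_zero
  have hI := I_ne_zero
  have hn := norm_tt_lt h.v0
  have hn1 : ‖I * tt v‖ = Real.exp (-(Real.pi * v.im)) := by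
    rw [norm_mul, norm_I, one_mul, norm_tt]
  have hne : I * tt v ≠ 0 := mul_ne_zero I_ne_zero (tt_ne v)
  have b1 := bw_dilog (I * tt v) hne (by rw [norm_mul, norm_I, one_mul]; exact hn)
  have b2 := bw_dilog (-(I * tt v)) (neg_ne_zero.2 hne)
    (by rw [norm_neg, norm_mul, norm_I, one_mul]; exact hn)
  rw [hn1, Real.log_exp] at b1
  rw [norm_neg, hn1, Real.log_exp, sub_neg_eq_add] at b2
  have e1 : I * exp (Real.pi * I * v) = I * tt v := rfl
  have e2 : I * exp (-(Real.pi * I * v)) = (-(I * tt v))⁻¹ := by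
    rw [exp_neg]
    have := tt_ne v
    show I * (tt v)⁻¹ = _
    field_simp
    linear_combination I_sq
  rw [e1, e2, SWpath_inv, b1, b2, h.mu, h.val]
  have c1 : (cE s v).re = Real.pi * v.im / 2 + s * (Real.pi * (v.re * v.im)) +
      (dilog (I * tt v) - dilog (-(I * tt v))).im / Real.pi := by
    have d1 : (dilog (I * tt v) - dilog (-(I * tt v))) / (Real.pi * I) =
        ((Real.pi⁻¹ : ℝ) : ℂ) * (-(I * (dilog (I * tt v) - dilog (-(I * tt v))))) := by
      push_cast
      field_simp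
      linear_combination (dilog (I * tt v) - dilog (-(I * tt v))) * I_sq
    have d2 : (-(Real.pi * I * v / 2) - s * (Real.pi * I * v ^ 2 / 2) +
        5 * s * (Real.pi * I / 8) : ℂ) = ((-(Real.pi / 2) : ℝ) : ℂ) * (I * v) +
        ((-(s * Real.pi / 2) : ℝ) : ℂ) * (I * v ^ 2) + ((5 * s * Real.pi / 8 : ℝ) : ℂ) * I := by
      push_cast
      ring
    unfold cE
    rw [d1, d2, add_re, add_re, add_re, re_ofReal_mul, re_ofReal_mul, re_ofReal_mul,
      re_ofReal_mul, I_mul_re, I_mul_re, I_re, neg_re, I_mul_re, sq, mul_im]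
    ring
  have c2 : (-(Real.pi * I / 2) - s * (Real.pi * I * v) + log (1 + I * tt v) -
      log (1 - I * tt v)).im = -(Real.pi / 2) - s * (Real.pi * v.re) + arg (1 + I * tt v) -
        arg (1 - I * tt v) := by
    have d2 : (-(Real.pi * I / 2) - s * (Real.pi * I * v) : ℂ) = ((-(Real.pi / 2) : ℝ) : ℂ) * I +
        ((-(s * Real.pi) : ℝ) : ℂ) * (I * v) := by
      push_cast
      ring
    rw [d2, sub_im, add_im, add_im, im_ofReal_mul, im_ofReal_mul, I_im, I_mul_im, log_im, log_im]
    ring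
  rw [c1, c2, sub_im]
  field_simp
  ring

end Pool.Agent.AT2
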