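import Pool.Agent.AT.Hyp

/-!
# Hyperbolic structures, volumes and complex volumes of alternating arborescent links

A tree with `p` nodes and `m` edges, the edge `j` joining the nodes `s j` and `t j`, and integer
weights `a i` of the nodes describe arborescent links: the node `i` is a band with `a i` half twists
(a twist region with `a i` crossings), the bands of adjacent nodes are plumbed together, and the link
is the boundary of the resulting surface, see `Pool.Agent.AT.Hyp`. Here the weights `2` and `-2` are
allowed for nodes with only one neighbour, which has another weight: these nodes are called clasps.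

Let `C_i` be a circle around the twist region `i`, for the nodes `i` which are not clasps. The
complement of the link and all these `C_i` (with `a i` replaced by a number of the same parity) is the
union of one block for each edge `j` of the tree. If `s j` and `t j` are not clasps, this is the block
of `Pool.Agent.AT.Hyp`, which consists of two ideal octahedra. If one of them is a clasp, let `i` be
the other one. Then the block contains two strands `u`, `l`, and is bounded by two thrice punctured
spheres: `u` has its ends at `S⁺` and `l` at `S⁻`, and they are linked in a clasp. The block is the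
union of the four ideal tetrahedra

`0 = (l_1 l_2 C_1 u)`, `1 = (l_1 l_2 u C_2)`, `2 = (u_1 u_2 l C_3)`, `3 = (u_1 u_2 C_4 l)`,

where all `C_k` are vertices at the cusp `C_i` and the other vertices are at the strands; the common
face of `0` and `1` is `(l_1 l_2 u)`, the common face of `2` and `3` is `(u_1 u_2 l)`, and the faces are
glued by `(u l_1 C_1) = (u_1 l C_4)`, `(u l_2 C_1) = (u_1 l C_3)`, `(u l_1 C_2) = (u_2 l C_4)`,
`(u l_2 C_2) = (u_2 l C_3)`. The other faces form `S⁻ = (C_1 l_1 l_2), (C_2 l_1 l_2)` and
`S⁺ = (C_3 u_1 u_2), (C_4 u_1 u_2)`. For the face pairings at the node `i`, the vertices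
`a_0, a_1, a_2, a_3` of the octahedra of the other blocks at the cusp `c` (and in the same way
`a_0, a_3, a_2, a_1` at the cusp `c'`) correspond to `u_1, l_2, l_1, u_2` and the octahedron `P` to the
tetrahedra `1`, `2` if the weight of the clasp is `2`, and to `u_1, l_1, l_2, u_2` and the tetrahedra
`0`, `2` if it is `-2`; changing the sign of the clasp is the same as a half twist at the node `i`.
All tetrahedra of this block have the given orientation.

(If the circle around the clasp is added to the block, one obtains the block of two octahedra whose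
other two thrice punctured spheres are glued together. Removing this circle by the Dehn filling gives
the block with four tetrahedra; without the filling at `C_i` they form one regular ideal octahedron,
and the block is the complement of the Whitehead link, cut open along a disc with two punctures.)
-/

namespace Pool.Agent.AT2.Hyp

open Pool.Agent.H63.VC Pool.Agent.H63.VC7.Hyp Pool.Agent.AT.Hyp Complex

variable {m p : ℕ}

/-- The equations of the block of a clasp, for the logarithmic parameters `x` of its tetrahedra. Here
`κ = π i` for the logarithms of the shape parameters, and `κ = 0` for flattenings. The first six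
equations are about the edges of the thrice punctured spheres (the sum around the remaining edge `u l`
is `2 κ` by the first two). The equation `lon` says that half of the longitude of `C_i` has the
logarithmic holonomy `U`, `su` and `sl` say that the logarithmic holonomies of the strand `u` from
`S⁺` to `S⁺` and of the strand `l` from `S⁻` to `S⁻` are equal to `U`. (For a clasp at the node `s j`
the same strands in the block with two octahedra consist of `a_0`, `a_3` and of `a_1`, `a_2`; they have
the logarithmic holonomies `((U - W) / 2 + q) - (-(U + W) / 2 + q)` and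
`((U + W) / 2 + q) - (-(U - W) / 2 + q)`.) -/
structure Clasp (κ : ℂ) (x : Fin 4 → Fin 3 → ℂ) (U : ℂ) : Prop where
  ll : x 0 0 + x 1 0 = κ + U
  uu : x 2 0 + x 3 0 = κ - U
  cl1 : x 0 1 + x 1 2 + x 3 0 = κ - U
  cl2 : x 0 2 + x 1 1 + x 2 0 = κ - U
  cu1 : x 0 0 + x 2 2 + x 3 1 = κ + U
  cu2 : x 1 0 + x 2 1 + x 3 2 = κ + U
  lon : x 0 0 - x 2 0 = U
  su : x 2 1 + x 2 2 - x 0 1 - x 1 2 = U
  sl : x 2 1 + x 3 2 - x 0 1 - x 0 2 = U

/-- The logarithmic holonomy of the part of the meridian of `C_i` from `S⁻` to `S⁺` in the block of a
clasp of weight `b`. -/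
def merC (κ : ℂ) (b : ℤ) (x : Fin 4 → Fin 3 → ℂ) : ℂ :=
  if b = 2 then x 2 0 + x 2 2 + x 1 1 - κ else x 0 0 + x 2 2 + x 0 1 - κ

/-- The edge `j` has a clasp. -/
def IsCl (s t : Fin m → Fin p) (a : Fin p → ℤ) (j : Fin m) : Prop := |a (s j)| = 2 ∨ |a (t j)| = 2

instance (s t : Fin m → Fin p) (a : Fin p → ℤ) (j : Fin m) : Decidable (IsCl s t a j) :=
  inferInstanceAs (Decidable (_ ∨ _))

/-- The clasp of an edge. -/
def leaf (s t : Fin m → Fin p) (a : Fin p → ℤ) (j : Fin m) : Fin p :=
  if |a (t j)| = 2 then t j else s j

/-- The other node of an edge with a clasp. -/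
def node (s t : Fin m → Fin p) (a : Fin p → ℤ) (j : Fin m) : Fin p :=
  if |a (t j)| = 2 then s j else t j

/-- The logarithmic holonomy of the part of the meridian of `C_i` in the block `j`. -/
def merB (κ : ℂ) (s t : Fin m → Fin p) (a : Fin p → ℤ) (E : Fin m → Edges)
    (x : Fin m → Fin 4 → Fin 3 → ℂ) (i : Fin p) (j : Fin m) : ℂ :=
  if IsCl s t a j then (if node s t a j = i then merC κ (a (leaf s t a j)) (x j) else 0)
  else (if s j = i then (E j).c 0 + (E j).c 1 - κ else 0) +
    (if t j = i then (E j).c' 0 + (E j).c' 3 - κ else 0)

/-- The gluing equations: the equations of the blocks, and the equations of the Dehn fillings of the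
cusps `C_i`. For the edges with a clasp, `x` are the logarithmic parameters of the tetrahedra of the
block; for the other ones `E`, `F` are the logarithmic parameters of the edges of the octahedra. -/
structure Glue (κ : ℂ) (s t : Fin m → Fin p) (a : Fin p → ℤ) (E F : Fin m → Edges)
    (x : Fin m → Fin 4 → Fin 3 → ℂ) (U lam : Fin p → ℂ) : Prop where
  block : ∀ j, ¬ IsCl s t a j → Block κ (E j) (F j) (U (s j)) (U (t j)) (lam (s j) - lam (t j))
  clasp : ∀ j, IsCl s t a j → Clasp κ (x j) (U (node s t a j))
  fill : ∀ i, |a i| ≠ 2 → (∑ j, merB κ s t a E x i j) + a i * U i = -(2 * κ)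

/-- The shape parameters `X`, `Y` describe the hyperbolic structure of the link complement: positively
oriented ideal tetrahedra satisfying Thurston's gluing, completeness and Dehn filling equations. For
the edges with a clasp, `X` are the shape parameters of the tetrahedra of the block and `Y` is not
used; for the other ones, `X` and `Y` are the shape parameters of the tetrahedra of the octahedra `P`
and `P'` around the edge `c c'`. -/
def IsGeom (s t : Fin m → Fin p) (a : Fin p → ℤ) (X Y : Fin m → Fin 4 → ℂ) : Prop :=
  (∀ j k, 0 < (X j k).im) ∧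
  (∀ j, ¬ IsCl s t a j → (∀ k, 0 < (Y j k).im) ∧
    ∑ k, lgs (X j k) 0 = 2 * (Real.pi * I) ∧ ∑ k, lgs (Y j k) 0 = 2 * (Real.pi * I)) ∧
  ∃ U lam : Fin p → ℂ, Glue (Real.pi * I) s t a (fun j => aroundC 1 2 fun k => lgs (X j k))
    (fun j => aroundC 2 1 fun k => lgs (Y j k)) (fun j k => lgs (X j k)) U lam

/-- `V` is the hyperbolic volume of the link complement. -/
def IsVolume (s t : Fin m → Fin p) (a : Fin p → ℤ) (V : ℝ) : Prop :=
  ∃ X Y : Fin m → Fin 4 → ℂ, IsGeom s t a X Y ∧
    V = ∑ j, ∑ k, (blochWigner (X j k) + (if IsCl s t a j then 0 else blochWigner (Y j k)))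

/-- The value of the block of a clasp of weight `b`, for the flattening `F`. The vertices are ordered
such that the vertices at `C_i` are the smallest ones and the vertices at `l` the largest ones,
`l_2 < l_1` if `b = 2` and `l_1 < l_2` otherwise, and `u_2 < u_1` if `f` is true and `u_1 < u_2`
otherwise. -/
noncomputable def claspR (b : ℤ) (X : Fin 4 → ℂ) (F : Fin 4 → Fin 3 → ℂ) (f : Bool) : ℂ :=
  tetR (X 0) (F 0) 0 (if b = 2 then 1 else 2) + tetR (X 1) (F 1) 0 (if b = 2 then 2 else 1) +
    (tetR (X 2) (F 2) (if f then 1 else 2) 0 + tetR (X 3) (F 3) (if f then 2 else 1) 0)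

/-- `Z` is the complex volume `i (Vol + i CS)`, well-defined modulo `π²`, of the link complement
(theorem of Neumann): the sum of the values of the Rogers dilogarithm for a flattening of the
tetrahedra (around the edges `a_0 a_2` for the blocks with two octahedra, see
`Pool.Agent.AT.Hyp.IsComplexVolume`) satisfying the equations of the edges and of the cusps, and an
ordering of the vertices compatible with the face pairings; `f` (at the node `s j`) and `f'` (at the
node `t j`) say at which blocks the gluings of `S⁺` are half twisted. -/
def IsComplexVolume (s t : Fin m → Fin p) (a : Fin p → ℤ) (Z : ℂ) : Prop :=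
  ∃ (X Y : Fin m → Fin 4 → ℂ) (F G : Fin m → Fin 4 → Fin 3 → ℂ) (U lam : Fin p → ℂ)
    (f f' : Fin m → Bool), IsGeom s t a X Y ∧
    (∀ j, IsCl s t a j → ∀ k, IsFlat (X j k) (F j k)) ∧
    (∀ j, ¬ IsCl s t a j → (∀ k, IsFlat (turn 1 2 (X j) k) (F j k) ∧
      IsFlat (turn 2 1 (Y j) k) (G j k)) ∧ ∑ k, F j k 0 = 0 ∧ ∑ k, G j k 0 = 0) ∧
    Glue 0 s t a (fun j => aroundA 1 2 (F j)) (fun j => aroundA 2 1 (G j)) F U lam ∧
    (∀ i, |a i| ≠ 2 → 2 ∣ (∑ j, ((if s j = i ∧ f j = true then (1 : ℤ) else 0) +
      (if t j = i ∧ f' j = true then 1 else 0))) - a i) ∧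
    Z = ∑ j, if IsCl s t a j then
        claspR (a (leaf s t a j)) (X j) (F j) (if |a (t j)| = 2 then f j else f' j)
      else blockR (turn 1 2 (X j)) (turn 2 1 (Y j)) (F j) (G j) (f j) (f' j)

end Pool.Agent.AT2.Hyp
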